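import Pool.Agent.H726.AL.CMP

/-!
Self-avoiding polygons on the square lattice: pointwise ratios for the law of the centre of mass
seen from the root, down to exponentially small probabilities.
-/

set_option autoImplicit false

namespace Pool.Agent.Results.MP_c23e5f_co.CentreOfMassRatio

/-- a closed nearest-neighbour loop on `ℤ²` with `m` steps, rooted at the origin and oriented,
that visits no vertex twice -/
def IsLoop (m : ℕ) (f : ZMod m → ℤ × ℤ) : Prop :=
  f 0 = 0 ∧ Function.Injective f ∧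
    ∀ i : ZMod m, |(f (i + 1)).1 - (f i).1| + |(f (i + 1)).2 - (f i).2| = 1

/-- `p n a`: the proportion, among the (rooted, oriented) self-avoiding polygons of perimeter
`2 n`, of those for which the sum of the first coordinates of the `2 n` vertices, relative to the
root, is `a`; that is, the first coordinate of the centre of mass of the vertices, relative to the
root, is `a / (2 n)` -/
noncomputable def p (n : ℕ) (a : ℤ) : ℝ :=
  ({f : ZMod (2 * n) → ℤ × ℤ | IsLoop (2 * n) f ∧ ∑ᶠ k, (f k).1 = a}.ncard : ℝ) /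
    ({f : ZMod (2 * n) → ℤ × ℤ | IsLoop (2 * n) f}.ncard : ℝ)

/-- **Theorem.** There are `K, c > 0` such that for all large `n` and all neighbouring integers
`a, b` with `p n a ≥ exp (- c n)`: `|p n b - p n a| ≤ K √(log (n / p n a) / n) p n a`. -/
theorem result : ∃ K c : ℝ, ∃ n₀ : ℕ, 0 < K ∧ 0 < c ∧ ∀ n : ℕ, n₀ ≤ n → ∀ a b : ℤ,
    (b = a + 1 ∨ a = b + 1) → Real.exp (-(c * n)) ≤ p n a →
    |p n b - p n a| ≤ K * Real.sqrt (Real.log (n / p n a) / n) * p n a := by
  obtain ⟨K, c, n₀, hK, hc, h⟩ := H726.AL.CMP.main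
  refine ⟨K, c, max n₀ 2, hK, hc, fun n hn a b hab hp => ?_⟩
  have hn2 : 2 ≤ n := (le_max_right _ _).trans hn
  have e : ∀ a : ℤ, p n a = (((Pool.Agent.H739K.KP (2 * n - 1)).filter
      (fun w => H726.AL.CM.cm w = a)).card : ℝ) / ((Pool.Agent.H739K.KP (2 * n - 1)).card : ℝ) := by
    intro a
    rw [← H726.AL.CMP.loop_cnt hn2 a, ← (Pool.Agent.H739K.CONV_proof n hn2).2.1]
    rfl
  rw [e a] at hp ⊢
  rw [e b]
  have hcp := Pool.Agent.R54.AS.Fin.card_pos hn2
  have h1 := h n ((le_max_left _ _).trans hn) hn2 a b hab hp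
  rw [← sub_div, abs_div, abs_of_pos hcp, mul_div_assoc', div_le_div_iff_of_pos_right hcp]
  exact h1

end Pool.Agent.Results.MP_c23e5f_co.CentreOfMassRatio
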