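import Pool.Agent.R475.AW

/-!
Mean width of square-lattice self-avoiding polygons: for most `n` the ratio `W_{n+1} / W_n` is
within `O(√(log n / n))` of one, and two-sided bounds `W_n ≍ n^θ` somewhere in all intervals
`[n, n + δ √n]` imply such bounds for most `n`.
-/

set_option autoImplicit false

namespace Pool.Agent.Results.MP_c23e5f_co.MostPerimeters

open Filter Topology

/-- a closed nearest-neighbour loop on `ℤ²` with `m` steps, rooted at the origin and oriented,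
that visits no vertex twice -/
def IsLoop (m : ℕ) (f : ZMod m → ℤ × ℤ) : Prop :=
  f 0 = 0 ∧ Function.Injective f ∧
    ∀ i : ZMod m, |(f (i + 1)).1 - (f i).1| + |(f (i + 1)).2 - (f i).2| = 1

/-- the width (horizontal extent) of a loop -/
noncomputable def width (m : ℕ) (f : ZMod m → ℤ × ℤ) : ℕ :=
  sSup {w : ℕ | ∃ i j, w = ((f i).1 - (f j).1).natAbs}

/-- the mean width `W_n` of the self-avoiding polygons of perimeter `2 n`: the average of the
width over the rooted oriented polygons. -/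
noncomputable def W (n : ℕ) : ℝ :=
  (∑ᶠ f ∈ {f : ZMod (2 * n) → ℤ × ℤ | IsLoop (2 * n) f}, (width (2 * n) f : ℝ)) /
    ({f : ZMod (2 * n) → ℤ × ℤ | IsLoop (2 * n) f}.ncard : ℝ)

/-- **Theorem.** (1) There is `K` such that for all large `N` and all `M ≥ 1` at most `K N / M²` of
the `n` with `N ≤ n < 2 N` have `|W_{n+1} / W_n - 1| > M √(log N / N)`.
(2) For every `θ` there is `K` such that for all `δ > 0`, `a > 0`, `b` and `M > 1`: if for all large
`n` there is `k` in `[n, n + δ √n]` with `a ≤ W_k / k^θ ≤ b`, then for all large `N` at most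
`K δ² N / log M` of the `n` with `N ≤ n < 2 N` do not satisfy `a / M ≤ W_n / n^θ ≤ M b`. -/
theorem result :
    (∃ K : ℝ, ∀ᶠ N : ℕ in atTop, ∀ M : ℝ, 1 ≤ M →
      (Nat.card {n : ℕ // N ≤ n ∧ n < 2 * N ∧ M * √(Real.log N / N) < |W (n + 1) / W n - 1|} : ℝ) ≤
        K * N / M ^ 2) ∧
    ∀ θ : ℝ, ∃ K : ℝ, ∀ δ a b M : ℝ, 0 < δ → 0 < a → 1 < M →
      (∀ᶠ n : ℕ in atTop, ∃ k : ℕ, (a ≤ W k / (k : ℝ) ^ θ ∧ W k / (k : ℝ) ^ θ ≤ b) ∧
        n ≤ k ∧ (k : ℝ) ≤ n + δ * √(n : ℝ)) →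
      ∀ᶠ N : ℕ in atTop,
        (Nat.card {n : ℕ // N ≤ n ∧ n < 2 * N ∧
          ¬ (a / M ≤ W n / (n : ℝ) ^ θ ∧ W n / (n : ℝ) ^ θ ≤ M * b)} : ℝ) ≤
        K * δ ^ 2 * N / Real.log M := by
  classical
  have hcard : ∀ (N : ℕ) (P : ℕ → Prop) [DecidablePred P],
      Nat.card {n : ℕ // N ≤ n ∧ n < 2 * N ∧ P n} = ((Finset.Ico N (2 * N)).filter P).card := by
    intro N P _
    rw [← Nat.card_eq_finsetCard]
    refine Nat.card_congr (Equiv.subtypeEquivRight fun n => ?_)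
    rw [Finset.mem_filter, Finset.mem_Ico]
    tauto
  refine ⟨?_, fun θ => ?_⟩
  · obtain ⟨B, hB⟩ := Pool.Agent.R475.AL.width_rate
    refine ⟨B, ?_⟩
    filter_upwards [hB] with N hN M hM
    have h := hN M hM
    rw [hcard]
    exact h
  · obtain ⟨B, hB⟩ := Pool.Agent.R475.AL.qt_width.bounds θ
    refine ⟨B, fun δ a b M hδ ha hM h => ?_⟩
    have h1 := hB {k | a ≤ W k / (k : ℝ) ^ θ ∧ W k / (k : ℝ) ^ θ ≤ b} δ a b M hδ (by
      filter_upwards [h] with n hn
      obtain ⟨k, h2, h3, h4⟩ := hn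
      exact ⟨k, h2, h3, h4⟩) ha hM (Eventually.of_forall fun k hk => hk)
    filter_upwards [h1] with N hN
    rw [hcard]
    exact hN

end Pool.Agent.Results.MP_c23e5f_co.MostPerimeters
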