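import Pool.Agent.W387.Q.Hyp
import Pool.Agent.TH303.LTwo
import Pool.Agent.R79.SW.Step

/-!
Mean width `W_n` of square-lattice self-avoiding polygons: the limit points of `log W_n / log n`, and
exact power laws along subsequences.
-/

set_option autoImplicit false

namespace Pool.Agent.Results.MP_c23e5f_co.PowerLawsBetween

open Filter Topology

/-- a closed nearest-neighbour loop on `ℤ²` with `m` steps, rooted at the origin and oriented,
that visits no vertex twice -/
def IsLoop (m : ℕ) (f : ZMod m → ℤ × ℤ) : Prop :=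
  f 0 = 0 ∧ Function.Injective f ∧
    ∀ i : ZMod m, |(f (i + 1)).1 - (f i).1| + |(f (i + 1)).2 - (f i).2| = 1

/-- the width (horizontal extent) of a loop -/
noncomputable def width (m : ℕ) (f : ZMod m → ℤ × ℤ) : ℕ :=
  sSup {w : ℕ | ∃ i j, w = ((f i).1 - (f j).1).natAbs}

/-- the mean width `W_n` of the self-avoiding polygons of perimeter `2 n`: the average of the
width over the rooted oriented polygons. -/
noncomputable def W (n : ℕ) : ℝ :=
  (∑ᶠ f ∈ {f : ZMod (2 * n) → ℤ × ℤ | IsLoop (2 * n) f}, (width (2 * n) f : ℝ)) /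
    ({f : ZMod (2 * n) → ℤ × ℤ | IsLoop (2 * n) f}.ncard : ℝ)

/-- the exponent at `n`: `log W_n / log n` -/
noncomputable def g (n : ℕ) : ℝ := Real.log (W n) / Real.log n

/-- the (finite) limit points of the exponents `g_n` -/
def limitPoints : Set ℝ := {x | MapClusterPt x atTop g}

/-- infinitely many `n` of the parity `p` satisfy `|W_n / n^c - B| ≤ K (1 + |c|) B log n / √n` -/
def PowerLaw (K c B : ℝ) (p : ℕ) : Prop :=
  ∃ᶠ n : ℕ in atTop, n % 2 = p ∧
    |W n / (n : ℝ) ^ c - B| ≤ K * (1 + |c|) * B * (Real.log n / Real.sqrt n)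

/-- **Theorem.** Let `W_n` be the mean width of the self-avoiding polygons of perimeter `2 n` on
`ℤ²`, and `g_n = log W_n / log n`. There is `K` such that:
(1) if for some `ε > 0` infinitely many `n` have `g_n ≤ c - ε` and infinitely many `g_n ≥ c + ε`, then
for every `B > 0` and each parity infinitely many `n` of this parity have
`|W_n / n^c - B| ≤ K (1 + |c|) B log n / √n`;
(2) the set of limit points of `g_n` in `ℝ` is closed and an interval;
(3) `g_n → θ` if and only if `θ` is a limit point near which there are only countably many limit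
points;
(4) either `g_n → ∞`, or `g_n` converges, or there is an interval of exponents `c`, for all of which
the conclusion of (1) holds. -/
theorem result : ∃ K : ℝ, 0 < K ∧
    (∀ c ε : ℝ, 0 < ε → (∃ᶠ n in atTop, g n ≤ c - ε) → (∃ᶠ n in atTop, c + ε ≤ g n) →
      ∀ B : ℝ, 0 < B → ∀ p : ℕ, p ≤ 1 → PowerLaw K c B p) ∧
    (IsClosed limitPoints ∧ limitPoints.OrdConnected) ∧
    (∀ θ : ℝ, Tendsto g atTop (𝓝 θ) ↔ θ ∈ limitPoints ∧
      ∃ δ : ℝ, 0 < δ ∧ (limitPoints ∩ Set.Ioo (θ - δ) (θ + δ)).Countable) ∧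
    (Tendsto g atTop atTop ∨ (∃ θ, Tendsto g atTop (𝓝 θ)) ∨
      ∃ x y : ℝ, x < y ∧ ∀ c ∈ Set.Ioo x y, ∀ B : ℝ, 0 < B → ∀ p : ℕ, p ≤ 1 →
        PowerLaw K c B p) := by
  obtain ⟨K, hK⟩ := Pool.Agent.TH303.LTwo.rate Pool.Agent.W387.Q.f3
  have hone : ∀ n : ℕ, 2 ≤ n → 1 ≤ 2 * W n := by
    intro N hN
    have h1 := Pool.Agent.H739K.F3x.mean_eq Pool.Agent.H739K.CONV_proof
      Pool.Agent.H739K.SWAP_proof hN
    have h2 := Pool.Agent.H739K.card_KP_pos hN
    have h3 := Pool.Agent.H739K.RATIO.card_le_mm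
      (Pool.Agent.H739K.F3x.nice Pool.Agent.H739K.BOX_proof (2 * N - 1) (by omega))
      (le_refl (2 * N - 1)) (by omega)
    show 1 ≤ 2 * Pool.Agent.H739K.MW N
    rw [← h1, le_div_iff₀ h2]
    linarith
  exact Pool.Agent.R79.SW.pack (v := W) (K0 := K) (fun n hn => Pool.Agent.H739K.MW_pos hn) hK hone

end Pool.Agent.Results.MP_c23e5f_co.PowerLawsBetween
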