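import Pool.Agent.R945.SJ.Area
import Pool.Agent.R945.SJ.Core

/-!
Square-lattice self-avoiding polygons: a joint law for the number of polygons and the mean width
along a set of perimeters with gaps `O(√n)` extends to all perimeters; precise power laws improve the
known rate `W_{n+1} / W_n = 1 + O(log n / √n)` to `1 + o(1 / √n)`.
-/

set_option autoImplicit false

namespace Pool.Agent.Results.MP_c23e5f_co.SparsePerimeters

open Filter Topology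

/-- a closed nearest-neighbour loop on `ℤ²` with `m` steps, rooted at the origin and oriented,
that visits no vertex twice -/
def IsLoop (m : ℕ) (f : ZMod m → ℤ × ℤ) : Prop :=
  f 0 = 0 ∧ Function.Injective f ∧
    ∀ i : ZMod m, |(f (i + 1)).1 - (f i).1| + |(f (i + 1)).2 - (f i).2| = 1

/-- the width (horizontal extent) of a loop -/
noncomputable def width (m : ℕ) (f : ZMod m → ℤ × ℤ) : ℕ :=
  sSup {w : ℕ | ∃ i j, w = ((f i).1 - (f j).1).natAbs}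

/-- the mean width `W_n` of the self-avoiding polygons of perimeter `2 n`: the average of the
width over the rooted oriented polygons. -/
noncomputable def W (n : ℕ) : ℝ :=
  (∑ᶠ f ∈ {f : ZMod (2 * n) → ℤ × ℤ | IsLoop (2 * n) f}, (width (2 * n) f : ℝ)) /
    ({f : ZMod (2 * n) → ℤ × ℤ | IsLoop (2 * n) f}.ncard : ℝ)

/-- the number `q_n` of rooted oriented polygons of perimeter `2 n`; it is `4 n` times the number
of polygons of perimeter `2 n`, as each has `2 n` vertices and two orientations -/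
noncomputable def q (n : ℕ) : ℕ := {f : ZMod (2 * n) → ℤ × ℤ | IsLoop (2 * n) f}.ncard

/-- every long interval `[n, n + δ √n]` meets `S` -/
def Gaps (δ : ℝ) (S : Set ℕ) : Prop :=
  ∀ᶠ n : ℕ in atTop, ∃ m ∈ S, n ≤ m ∧ (m : ℝ) ≤ n + δ * Real.sqrt n

/-- the gaps of `S` are `o(√(n log n))` -/
def LogGaps (S : Set ℕ) : Prop :=
  ∀ δ : ℝ, 0 < δ → ∀ᶠ n : ℕ in atTop, ∃ m ∈ S, n ≤ m ∧
    (m : ℝ) ≤ n + δ * Real.sqrt (n * Real.log n)

/-- **Theorem.** Let `q_n = 4 n |P_{2n}|` be the number of rooted oriented polygons of perimeter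
`2 n`, `W_n` their mean width, `μ = lim q_n^(1/(2n))` and `u_n = q_n / μ^(2n)`.
(1) Let `S` meet `[n, n + δ √n]` for all large `n`, `δ` being any constant.  If `u_n / n^β` and
`W_n / n^θ` stay between positive constants along `S`, then (with other constants) along all `n`.
(2) Let `S` have gaps `o(√(n log n))`.  If `log u_n / log n → β` and `log W_n / log n → θ` along `S`,
then along all `n`; moreover `(u_{n+1} / u_n - 1) √(n / log n) → 0` and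
`(W_{n+1} / W_n - 1) √(n / log n) → 0`.
(3) Let `S` have gaps `o(√n)`.  If `u_n / n^β → B > 0` and `W_n / n^θ → c > 0` along `S`, then along
all `n`; moreover `(u_{n+1} / u_n - 1) √n → 0` and `(W_{n+1} / W_n - 1) √n → 0`. -/
theorem result : ∃ μ : ℝ, 0 < μ ∧
    Tendsto (fun n : ℕ => (q n : ℝ) ^ (1 / (2 * (n : ℝ)))) atTop (𝓝 μ) ∧
    ∀ u : ℕ → ℝ, (∀ n, u n = (q n : ℝ) / μ ^ (2 * n)) →
    (∀ (S : Set ℕ) (δ : ℝ), 0 < δ → Gaps δ S → ∀ β θ b B c C : ℝ, 0 < b → 0 < c →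
      (∀ᶠ n : ℕ in atTop, n ∈ S → b ≤ u n / (n : ℝ) ^ β ∧ u n / (n : ℝ) ^ β ≤ B) →
      (∀ᶠ n : ℕ in atTop, n ∈ S → c ≤ W n / (n : ℝ) ^ θ ∧ W n / (n : ℝ) ^ θ ≤ C) →
      ∃ b' B' c' C' : ℝ, 0 < b' ∧ 0 < c' ∧ ∀ᶠ n : ℕ in atTop,
        b' ≤ u n / (n : ℝ) ^ β ∧ u n / (n : ℝ) ^ β ≤ B' ∧
        c' ≤ W n / (n : ℝ) ^ θ ∧ W n / (n : ℝ) ^ θ ≤ C') ∧
    (∀ S : Set ℕ, LogGaps S → ∀ β θ : ℝ,
      Tendsto (fun n : ℕ => Real.log (u n) / Real.log n) (atTop ⊓ 𝓟 S) (𝓝 β) →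
      Tendsto (fun n : ℕ => Real.log (W n) / Real.log n) (atTop ⊓ 𝓟 S) (𝓝 θ) →
      Tendsto (fun n : ℕ => Real.log (u n) / Real.log n) atTop (𝓝 β) ∧
      Tendsto (fun n : ℕ => Real.log (W n) / Real.log n) atTop (𝓝 θ) ∧
      Tendsto (fun n : ℕ => (u (n + 1) / u n - 1) * Real.sqrt (n / Real.log n)) atTop (𝓝 0) ∧
      Tendsto (fun n : ℕ => (W (n + 1) / W n - 1) * Real.sqrt (n / Real.log n)) atTop (𝓝 0)) ∧
    (∀ S : Set ℕ, (∀ δ : ℝ, 0 < δ → Gaps δ S) → ∀ β θ B c : ℝ, 0 < B → 0 < c →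
      Tendsto (fun n : ℕ => u n / (n : ℝ) ^ β) (atTop ⊓ 𝓟 S) (𝓝 B) →
      Tendsto (fun n : ℕ => W n / (n : ℝ) ^ θ) (atTop ⊓ 𝓟 S) (𝓝 c) →
      Tendsto (fun n : ℕ => u n / (n : ℝ) ^ β) atTop (𝓝 B) ∧
      Tendsto (fun n : ℕ => W n / (n : ℝ) ^ θ) atTop (𝓝 c) ∧
      Tendsto (fun n : ℕ => (u (n + 1) / u n - 1) * Real.sqrt n) atTop (𝓝 0) ∧
      Tendsto (fun n : ℕ => (W (n + 1) / W n - 1) * Real.sqrt n) atTop (𝓝 0)) := by
  obtain ⟨D0, K0⟩ := Pool.Agent.R945.SJ.kc_u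
  obtain ⟨D1, y, K1', hV1⟩ := Pool.Agent.R945.SJ.kc_width
  obtain ⟨K1, hV⟩ := Pool.Agent.R945.SJ.kc_half K0 K1' hV1
  have hV' : ∀ᶠ n : ℕ in atTop, y n / 2 = Pool.Agent.R945.SJ.u n * W n := hV
  refine ⟨H981.mu, H981.mu_pos, Pool.Agent.R945.SJ.root, fun u hu => ?_⟩
  obtain rfl : u = Pool.Agent.R945.SJ.u := funext hu
  refine ⟨?_, ?_, ?_⟩
  · intro S δ hδ hS β θ b B c C hb hc h0 h1
    exact Pool.Agent.R945.SJ.bounds K0 K1 hV' hδ hS hb hc h0 h1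
  · intro S hS β θ h0 h1
    exact Pool.Agent.R945.SJ.expo K0 K1 hV' hS h0 h1
  · intro S hS β θ B c hB hc h0 h1
    exact Pool.Agent.R945.SJ.form K0 K1 hV' hS hB hc h0 h1

end Pool.Agent.Results.MP_c23e5f_co.SparsePerimeters
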